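import Pool.Agent.Helper24K9.PD.Gain

set_option autoImplicit false

/-!
# Primes `8 j d_m² + v` for the solutions of `d² - 8 b² = 1`

Let `d_m + b_m √8 = (3 + √8)^m`. The admissible primes of the problem are the primes among the numbers `8 d_m² + 1`.
Here we show for all odd `v`, in particular for `v = 1`, and for EVERY `k`, that for a set of positive lower logarithmic
density of the multipliers `j` at least `k` of the numbers `8 j d_m² + v` with `1 ≤ m ≤ log j` are primes. The same holds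
for the `j` in a given residue class `c` modulo `q`, as soon as this is not excluded by the obvious local condition. In
particular, for `v = 1` and all `q` which are not divisible by `73`, it holds for the `j ≡ 1` modulo `q`. On the other
hand for `j ≡ 27` modulo `35` all the numbers `8 j d_m² + 1` are composite.

This is the analogue for a Pell equation of a theorem of Erdős and Odlyzko for the numbers `j 2^m + 1`. For powers of `2`
the primes in the progressions needed are counted by the theorem of Barban, Linnik and Tshudakov. Here the moduli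
`8 q d_m²` are arbitrary, and a power of the size of the primes, and we use the lower bound of Linnik for the primes in
progressions whose modulus is not a multiple of an exceptional modulus; the `m` for which `8 q d_m²` is a multiple of a
large prime power divisor of the exceptional modulus are few, as the `n` with `e ∣ b_n` are closed under differences. The
second moment of the number of the `m` is estimated by a sieve, and a mean value over the pairs `m, m'` of the
arithmetic factor of `v (d_m² - d_m'²) d_m d_m' = 8 v b_{m+m'} b_{m-m'} d_m d_m'`, as in the theorem of Romanoff. For `k`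
primes we use multipliers which are divisible by many small primes.
-/

namespace Pool.Agent.Results.MP_f53aaa_nt.PellMultipliers

open Finset Filter

/-- The solutions of the equation `d² - 8 b² = 1`: the pair `(d_m, b_m)`. -/
def db : ℕ → ℕ × ℕ
  | 0 => (1, 0)
  | m + 1 => (3 * (db m).1 + 8 * (db m).2, (db m).1 + 3 * (db m).2)

/-- `d_m` -/
def d (m : ℕ) : ℕ := (db m).1

/-- `b_m` -/
def b (m : ℕ) : ℕ := (db m).2

/-- The number of the `m`, `1 ≤ m ≤ log j`, for which `8 j d_m² + v` is a prime. -/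
noncomputable def primesAt (v : ℤ) (j : ℕ) : ℕ :=
  ((Icc 1 ⌊Real.log j⌋₊).filter (fun m : ℕ => (8 * (j : ℤ) * (d m : ℤ) ^ 2 + v).toNat.Prime)).card

open Classical in
/-- The set `A` has positive lower logarithmic density. -/
def PosLowerLogDensity (A : Set ℕ) : Prop :=
  ∃ κ : ℝ, 0 < κ ∧ ∀ᶠ X : ℕ in atTop, κ * Real.log X ≤ ∑ j ∈ (Icc 1 X).filter (· ∈ A), 1 / (j : ℝ)

lemma db_eq (m : ℕ) : db m = Pool.Agent.Helper24K9.PD.db m := by
  induction m with
  | zero => rfl
  | succ m ih =>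
    show (3 * (db m).1 + 8 * (db m).2, (db m).1 + 3 * (db m).2) = _
    rw [ih]
    rfl

lemma d_eq (m : ℕ) : d m = Pool.Agent.Helper24K9.PD.d m := by
  unfold d Pool.Agent.Helper24K9.PD.d
  rw [db_eq]

lemma real_eq (m : ℕ) : (d m : ℝ) + (b m : ℝ) * √8 = (3 + √8) ^ m := by
  have h8 : (√8 : ℝ) * √8 = 8 := Real.mul_self_sqrt (by norm_num)
  induction m with
  | zero =>
    show ((1 : ℕ) : ℝ) + ((0 : ℕ) : ℝ) * √8 = _
    norm_num
  | succ m ih =>
    rw [pow_succ, ← ih]
    show ((3 * d m + 8 * b m : ℕ) : ℝ) + ((d m + 3 * b m : ℕ) : ℝ) * √8 = _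
    push_cast
    linear_combination -(b m : ℝ) * h8

/-- The general form. -/
theorem general (q : ℕ) (hq : 1 ≤ q) (c : ℕ) (v : ℤ)
    (hloc : ∃ m : ℕ, IsCoprime (8 * q * (d m : ℤ) ^ 2) (8 * c * (d m : ℤ) ^ 2 + v)) (k : ℕ) :
    PosLowerLogDensity {j | k ≤ primesAt v j ∧ j ≡ c [MOD q]} := by
  obtain ⟨m₀, hco⟩ := hloc
  rw [d_eq] at hco
  have hco' : IsCoprime ((Pool.Agent.Helper24K9.PD.g q m₀ : ℕ) : ℤ) (Pool.Agent.Helper24K9.PD.h c v m₀) := by
    unfold Pool.Agent.Helper24K9.PD.g Pool.Agent.Helper24K9.PD.h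
    push_cast
    exact hco
  obtain ⟨κ, hκ, X₀, h⟩ := Pool.Agent.Helper24K9.PD.dens_gain q hq c v m₀ hco' k
  refine ⟨κ, hκ, ?_⟩
  filter_upwards [eventually_ge_atTop X₀] with X hX
  refine (h X hX).trans (le_of_eq ?_)
  apply sum_congr _ (fun _ _ => rfl)
  ext j
  simp only [mem_filter, primesAt, Nat.ModEq, Set.mem_ofPred_eq, d_eq]
  tauto

/-- squares modulo `35` -/
lemma d_sq_add_three (m : ℕ) : d (m + 3) ^ 2 % 35 = d m ^ 2 % 35 := by
  have h1 : d (m + 3) = 99 * d m + 280 * b m := by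
    show 3 * (3 * (3 * d m + 8 * b m) + 8 * (d m + 3 * b m)) + 8 * (3 * d m + 8 * b m + 3 * (d m + 3 * b m)) = _
    ring
  rw [h1]
  have h2 : (99 * d m + 280 * b m) ^ 2 = d m ^ 2 + 35 * (280 * d m ^ 2 + 1584 * (d m * b m) + 2240 * b m ^ 2) := by
    ring
  rw [h2, Nat.add_mul_mod_self_left]

lemma d_sq_mod (m : ℕ) : d m ^ 2 % 35 = 1 ∨ d m ^ 2 % 35 = 9 := by
  have key : ∀ i : ℕ, (d (3 * i) ^ 2 % 35 = 1 ∨ d (3 * i) ^ 2 % 35 = 9) ∧
      (d (3 * i + 1) ^ 2 % 35 = 1 ∨ d (3 * i + 1) ^ 2 % 35 = 9) ∧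
      (d (3 * i + 2) ^ 2 % 35 = 1 ∨ d (3 * i + 2) ^ 2 % 35 = 9) := by
    intro i
    induction i with
    | zero => exact ⟨Or.inl rfl, Or.inr rfl, Or.inr rfl⟩
    | succ i ih =>
      have e1 : 3 * (i + 1) = 3 * i + 3 := by ring
      have e2 : 3 * (i + 1) + 1 = (3 * i + 1) + 3 := by ring
      have e3 : 3 * (i + 1) + 2 = (3 * i + 2) + 3 := by ring
      rw [e2, e3, e1, d_sq_add_three, d_sq_add_three, d_sq_add_three]
      exact ih
  have h := key (m / 3)
  have h3 : m = 3 * (m / 3) ∨ m = 3 * (m / 3) + 1 ∨ m = 3 * (m / 3) + 2 := by omega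
  rcases h3 with h3 | h3 | h3
  · rw [h3]; exact h.1
  · rw [h3]; exact h.2.1
  · rw [h3]; exact h.2.2

lemma composite (j : ℕ) (hj : j ≡ 27 [MOD 35]) (m : ℕ) : ¬ (8 * j * d m ^ 2 + 1).Prime := by
  intro hp
  have hj' : j % 35 = 27 := hj
  have hj0 : 27 ≤ j := by omega
  have hd0 : 1 ≤ d m := by
    rw [d_eq]
    exact Pool.Agent.Helper24K9.PD.d_pos m
  have hd1 : 1 ≤ d m ^ 2 := Nat.one_le_pow _ _ hd0
  have hbig : 7 < 8 * j * d m ^ 2 + 1 := by nlinarith
  have hmod : (8 * j * d m ^ 2 + 1) % 35 = (8 * 27 * (d m ^ 2 % 35) + 1) % 35 := by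
    have h1 : 8 * j * d m ^ 2 + 1 ≡ 8 * 27 * (d m ^ 2 % 35) + 1 [MOD 35] :=
      Nat.ModEq.add_right _ (Nat.ModEq.mul (Nat.ModEq.mul_left _ hj) (Nat.mod_modEq _ _).symm)
    exact h1
  rcases d_sq_mod m with h | h
  · rw [h] at hmod
    have h7 : 7 ∣ 8 * j * d m ^ 2 + 1 := by omega
    have := (Nat.prime_dvd_prime_iff_eq (by norm_num) hp).1 h7
    omega
  · rw [h] at hmod
    have h5 : 5 ∣ 8 * j * d m ^ 2 + 1 := by omega
    have := (Nat.prime_dvd_prime_iff_eq (by norm_num) hp).1 h5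
    omega

/-- **Primes `8 j d_m² + v`.** Here `d_m + b_m √8 = (3 + √8)^m`, and `primesAt v j` is the number of the `m` with
`1 ≤ m ≤ log j` for which `8 j d_m² + v` is a prime.

(A) Let `q ≥ 1`, `c ≥ 0`, and let `v` be an integer such that `8 q d_m²` and `8 c d_m² + v` are coprime for at least one
`m`. Then for every `k` the set of the `j ≡ c (mod q)` for which at least `k` of the numbers `8 j d_m² + v`,
`1 ≤ m ≤ log j`, are primes has positive lower logarithmic density.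

(B) For every odd `v` and every `k` the set of the `j` for which at least `k` of the numbers `8 j d_m² + v`,
`1 ≤ m ≤ log j`, are primes has positive lower logarithmic density.

(C) For every `q` which is not divisible by `73` and every `k`, the set of the `j ≡ 1 (mod q)` for which at least `k` of
the numbers `8 j d_m² + 1`, `1 ≤ m ≤ log j`, are primes has positive lower logarithmic density.

(D) If `j ≡ 27 (mod 35)`, then none of the numbers `8 j d_m² + 1` is a prime. -/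
theorem result :
    (∀ m : ℕ, (d m : ℝ) + (b m : ℝ) * √8 = (3 + √8) ^ m) ∧
    (∀ (q : ℕ) (_ : 1 ≤ q) (c : ℕ) (v : ℤ),
      (∃ m : ℕ, IsCoprime (8 * q * (d m : ℤ) ^ 2) (8 * c * (d m : ℤ) ^ 2 + v)) → ∀ k : ℕ,
      PosLowerLogDensity {j | k ≤ primesAt v j ∧ j ≡ c [MOD q]}) ∧
    (∀ v : ℤ, Odd v → ∀ k : ℕ, PosLowerLogDensity {j | k ≤ primesAt v j}) ∧
    (∀ q : ℕ, ¬ 73 ∣ q → ∀ k : ℕ, PosLowerLogDensity {j | k ≤ primesAt 1 j ∧ j ≡ 1 [MOD q]}) ∧
    (∀ j : ℕ, j ≡ 27 [MOD 35] → ∀ m : ℕ, ¬ (8 * j * d m ^ 2 + 1).Prime) := by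
  refine ⟨real_eq, general, fun v hv k => ?_, fun q hq k => ?_, composite⟩
  · have h := general 1 le_rfl 0 v ⟨0, by
      show IsCoprime (8 * ((1 : ℕ) : ℤ) * ((1 : ℕ) : ℤ) ^ 2) (8 * ((0 : ℕ) : ℤ) * ((1 : ℕ) : ℤ) ^ 2 + v)
      obtain ⟨l, hl⟩ := hv
      have h2 : IsCoprime (2 : ℤ) v := ⟨-l, 1, by rw [hl]; ring⟩
      have h3 : IsCoprime ((2 : ℤ) ^ 3) v := h2.pow_left
      norm_num at h3 ⊢
      exact h3⟩ k
    have e : {j | k ≤ primesAt v j ∧ j ≡ 0 [MOD 1]} = {j | k ≤ primesAt v j} := by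
      ext j
      simp [Nat.modEq_one]
    rwa [e] at h
  · have hq1 : 1 ≤ q := by
      rcases Nat.eq_zero_or_pos q with h | h
      · exact absurd (h ▸ dvd_zero 73) hq
      · exact h
    apply general q hq1 1 1
    refine ⟨1, ?_⟩
    show IsCoprime (8 * (q : ℤ) * ((3 : ℕ) : ℤ) ^ 2) (8 * ((1 : ℕ) : ℤ) * ((3 : ℕ) : ℤ) ^ 2 + 1)
    have h73 : Nat.Prime 73 := by norm_num
    have h1 : IsCoprime (q : ℤ) ((73 : ℕ) : ℤ) :=
      Nat.isCoprime_iff_coprime.2 ((Nat.Prime.coprime_iff_not_dvd h73).2 hq).symm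
    have h2 : IsCoprime ((8 * 3 ^ 2 : ℕ) : ℤ) ((73 : ℕ) : ℤ) := Nat.isCoprime_iff_coprime.2 (by norm_num)
    have h3 := h1.mul_left h2
    have e1 : (q : ℤ) * ((8 * 3 ^ 2 : ℕ) : ℤ) = 8 * (q : ℤ) * ((3 : ℕ) : ℤ) ^ 2 := by push_cast; ring
    have e2 : ((73 : ℕ) : ℤ) = 8 * ((1 : ℕ) : ℤ) * ((3 : ℕ) : ℤ) ^ 2 + 1 := by norm_num
    rw [e1, e2] at h3
    exact h3

end Pool.Agent.Results.MP_f53aaa_nt.PellMultipliers
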