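import Mathlib
import Pool.Agent.Helper92K9.PL.Series

set_option autoImplicit false

/-!
# Primes in the sequence `8 d_m ^ 2 + 1 = 64 b_m ^ 2 + 9` perturbed by polynomials

Let `d_m + b_m √8 = (3 + √8) ^ m` and `N_m = 8 d_m ^ 2 + 1 = 64 b_m ^ 2 + 9`; the admissible primes of
the problem are the primes among the `N_m`.  With `α = (3 + √8) ^ 2` one has `N_m = 2 α ^ m + O(1)`.
For real parameters `c = (c_0, ..., c_{k-1})` and `M ≥ k` let `F_c(m)` be the largest integer below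
`N_m + 1 + α ^ m m ^ (-M) (c_0 + c_1 m + ... + c_{k-1} m ^ (k-1))`.  So `F_0(m) = N_m`.  We prove that for
almost every `c` the indices `m` for which `F_c(m)` is prime have the correlations of a Poisson process
of intensity `κ = 1 / log α` on the logarithmic scale, for all orders up to `k / 2`, and the gap
statistics of such a process up to the error of the Bonferroni inequalities with `k / 2` moments.
-/

namespace Pool.Agent.Results.MP_f53aaa_nt.PolynomialPerturbations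

open Filter Topology MeasureTheory
open Pool.Agent.Helper92K9.PL (YY Tp KK Pr mem_Pr Ix amp)

/-- `(d_m, b_m)` with `d_m + b_m √8 = (3 + √8) ^ m`. -/
def db : ℕ → ℕ × ℕ
  | 0 => (1, 0)
  | m + 1 => (3 * (db m).1 + 8 * (db m).2, (db m).1 + 3 * (db m).2)

/-- `N_m = 8 d_m ^ 2 + 1`. -/
def N (m : ℕ) : ℕ := 8 * (db m).1 ^ 2 + 1

/-- `α = (3 + √8) ^ 2`. -/
noncomputable def al : ℝ := (3 + √8) ^ 2

/-- The largest integer below `N_m + 1 + α ^ m m ^ (-M) (c_0 + c_1 m + ... + c_{k-1} m ^ (k-1))`. -/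
noncomputable def F {k : ℕ} (M : ℕ) (c : Fin k → ℝ) (m : ℕ) : ℕ :=
  ⌈(N m : ℝ) + 1 + al ^ m / (m : ℝ) ^ M * ∑ j : Fin k, c j * (m : ℝ) ^ (j : ℕ)⌉₊ - 1

/-- The indices `m ≥ 2` for which `F_c(m)` is prime. -/
def S {k : ℕ} (M : ℕ) (c : Fin k → ℝ) : Set ℕ := {m | 2 ≤ m ∧ (F M c m).Prime}

/-- The intensity `1 / log α`. -/
noncomputable def kappa : ℝ := 1 / Real.log al

lemma real_eq (m : ℕ) : ((db m).1 : ℝ) + ((db m).2 : ℝ) * √8 = (3 + √8) ^ m := by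
  induction m with
  | zero => simp [db]
  | succ m ih =>
    rw [pow_succ, ← ih]
    have h8 : √(8 : ℝ) * √8 = 8 := Real.mul_self_sqrt (by norm_num)
    simp only [db]
    push_cast
    linear_combination -((db m).2 : ℝ) * h8

lemma pell (m : ℕ) : (db m).1 ^ 2 = 8 * (db m).2 ^ 2 + 1 := by
  induction m with
  | zero => simp [db]
  | succ m ih =>
    simp only [db]
    nlinarith

lemma N_eq (m : ℕ) : N m = 64 * (db m).2 ^ 2 + 9 := by
  unfold N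
  rw [pell]
  ring

lemma al_gt : 1 < al := by
  unfold al
  have : 0 ≤ √(8 : ℝ) := Real.sqrt_nonneg _
  nlinarith

lemma N_le (m : ℕ) : (N m : ℝ) + 1 ≤ 10 * al ^ m := by
  have h1 := real_eq m
  have h2 : 0 ≤ ((db m).2 : ℝ) * √8 := mul_nonneg (Nat.cast_nonneg _) (Real.sqrt_nonneg _)
  have h3 : ((db m).1 : ℝ) ≤ (3 + √8) ^ m := by linarith
  have h4 : ((db m).1 : ℝ) ^ 2 ≤ al ^ m := by
    calc ((db m).1 : ℝ) ^ 2 ≤ ((3 + √8) ^ m) ^ 2 := pow_le_pow_left₀ (Nat.cast_nonneg _) h3 2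
      _ = al ^ m := by unfold al; rw [← pow_mul, ← pow_mul, mul_comm]
  have h5 : 1 ≤ al ^ m := one_le_pow₀ al_gt.le
  unfold N
  push_cast
  linarith

/-- the amplitude of the Pell sequence -/
noncomputable def GP (m : ℕ) : ℝ := ((N m : ℝ) + 1) / al ^ m

/-- the weight of the perturbation -/
noncomputable def ωP (M m : ℕ) : ℝ := ((m : ℝ) ^ M)⁻¹


lemma GP_ge (m : ℕ) : 1 ≤ GP m := by
  have h1 := real_eq m
  have h2 := pell m
  have hs : √(8 : ℝ) ^ 2 = 8 := Real.sq_sqrt (by norm_num)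
  have hs0 : 0 ≤ √(8 : ℝ) := Real.sqrt_nonneg _
  have h3 : ((db m).1 : ℝ) ^ 2 = 8 * ((db m).2 : ℝ) ^ 2 + 1 := by exact_mod_cast h2
  have hd0 : (0 : ℝ) ≤ (db m).1 := Nat.cast_nonneg _
  have hb0 : (0 : ℝ) ≤ (db m).2 := Nat.cast_nonneg _
  have h4 : ((db m).2 : ℝ) * √8 ≤ (db m).1 := by
    have h5 : (((db m).2 : ℝ) * √8) ^ 2 ≤ ((db m).1 : ℝ) ^ 2 := by
      rw [mul_pow, hs, h3]
      linarith
    exact le_of_sq_le_sq h5 hd0
  have h6 : (3 + √8) ^ m ≤ 2 * ((db m).1 : ℝ) := by linarith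
  have h7 : al ^ m ≤ 4 * ((db m).1 : ℝ) ^ 2 := by
    have h8 : ((3 + √8) ^ m) ^ 2 ≤ (2 * ((db m).1 : ℝ)) ^ 2 := pow_le_pow_left₀ (by positivity) h6 2
    have e : al ^ m = ((3 + √8) ^ m) ^ 2 := by unfold al; rw [← pow_mul, ← pow_mul, mul_comm]
    rw [e]
    linarith
  have hal : 0 < al ^ m := pow_pos (by linarith [al_gt]) _
  unfold GP
  rw [le_div_iff₀ hal]
  unfold N
  push_cast
  nlinarith

lemma polyB (M : ℕ) : ∀ᶠ p : ℕ in atTop, |GP p| ≤ (p : ℝ) ^ (M + 1) := by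
  filter_upwards [eventually_ge_atTop 10] with p hp
  have hp1 : (10 : ℝ) ≤ p := by exact_mod_cast hp
  have hal : 0 < al ^ p := pow_pos (by linarith [al_gt]) _
  have hpM1 : (p : ℝ) ≤ (p : ℝ) ^ (M + 1) := le_self_pow₀ (by linarith) (by omega)
  rw [abs_of_nonneg (by linarith [GP_ge p])]
  unfold GP
  rw [div_le_iff₀ hal]
  have := N_le p
  have h2 : 10 * al ^ p ≤ (p : ℝ) ^ (M + 1) * al ^ p :=
    mul_le_mul_of_nonneg_right (hp1.trans hpM1) hal.le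
  linarith

lemma polyW (M : ℕ) : ∀ᶠ p : ℕ in atTop, ((p : ℝ) ^ (M + 1))⁻¹ ≤ ωP M p ∧ ωP M p ≤ (p : ℝ) ^ (M + 1) := by
  filter_upwards [eventually_ge_atTop 10] with p hp
  have hp1 : (10 : ℝ) ≤ p := by exact_mod_cast hp
  have hpM : (1 : ℝ) ≤ (p : ℝ) ^ M := one_le_pow₀ (by linarith)
  have hpM1 : (p : ℝ) ≤ (p : ℝ) ^ (M + 1) := le_self_pow₀ (by linarith) (by omega)
  unfold ωP
  refine ⟨?_, ?_⟩
  · exact inv_anti₀ (by positivity) (pow_le_pow_right₀ (by linarith) (by omega))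
  · exact (inv_le_one_of_one_le₀ hpM).trans (by linarith)

lemma F_eq {k : ℕ} (M : ℕ) (c : Fin k → ℝ) (m : ℕ) : F M c m = ⌈amp GP (ωP M) c m * al ^ m⌉₊ - 1 := by
  have hal : 0 < al ^ m := pow_pos (by linarith [al_gt]) _
  unfold F amp GP ωP
  congr 2
  field_simp

lemma F_zero (k M m : ℕ) : F M (0 : Fin k → ℝ) m = N m := by
  unfold F
  have e : (N m : ℝ) + 1 + al ^ m / (m : ℝ) ^ M * ∑ j : Fin k, (0 : Fin k → ℝ) j * (m : ℝ) ^ (j : ℕ) =
      ((N m + 1 : ℕ) : ℝ) := by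
    simp
  rw [e, Nat.ceil_natCast]
  rfl

lemma adm_near (k M : ℕ) (c : Fin k → ℝ) (hkM : k ≤ M) :
    Pool.Agent.Helper92K9.PL.Adm GP (ωP M) c := by
  set B := ∑ j, |c j| with hB
  have hB0 : 0 ≤ B := Finset.sum_nonneg fun j _ => abs_nonneg _
  refine ⟨1 / 2, by norm_num, ?_⟩
  have hbig : ∀ᶠ p : ℕ in atTop, 2 * B ≤ (p : ℝ) := tendsto_natCast_atTop_atTop.eventually_ge_atTop _
  filter_upwards [hbig, eventually_ge_atTop 1] with p h1 h2
  have hp1 : (1 : ℝ) ≤ p := by exact_mod_cast h2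
  have hp0 : (0 : ℝ) < p := by linarith
  have hpM : (0 : ℝ) < (p : ℝ) ^ M := by positivity
  have e1 : (p : ℝ) ^ (k - 1) ≤ (p : ℝ) ^ M := pow_le_pow_right₀ hp1 (by omega)
  have e2 : ((p : ℝ) ^ M)⁻¹ * (p : ℝ) ^ (k - 1) ≤ 1 := by
    rw [inv_mul_le_iff₀ hpM, mul_one]
    exact e1
  have e3 : |∑ j : Fin k, c j * (p : ℝ) ^ (j : ℕ)| * p ≤ B * (p : ℝ) ^ M := by
    calc |∑ j : Fin k, c j * (p : ℝ) ^ (j : ℕ)| * p ≤ (∑ j : Fin k, |c j * (p : ℝ) ^ (j : ℕ)|) * p := by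
          gcongr
          exact Finset.abs_sum_le_sum_abs _ _
      _ = ∑ j : Fin k, |c j| * (p : ℝ) ^ ((j : ℕ) + 1) := by
          rw [Finset.sum_mul]
          refine Finset.sum_congr rfl fun j _ => ?_
          rw [abs_mul, abs_of_nonneg (by positivity : (0 : ℝ) ≤ (p : ℝ) ^ (j : ℕ)), pow_succ]
          ring
      _ ≤ ∑ j : Fin k, |c j| * (p : ℝ) ^ M := by
          refine Finset.sum_le_sum fun j _ => ?_
          refine mul_le_mul_of_nonneg_left (pow_le_pow_right₀ hp1 ?_) (abs_nonneg _)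
          have := j.2
          omega
      _ = _ := by rw [← Finset.sum_mul]
  have e4 : |((p : ℝ) ^ M)⁻¹ * ∑ j : Fin k, c j * (p : ℝ) ^ (j : ℕ)| ≤ 1 / 2 := by
    rw [abs_mul, abs_of_pos (inv_pos.2 hpM), inv_mul_le_iff₀ hpM]
    have e5 : |∑ j : Fin k, c j * (p : ℝ) ^ (j : ℕ)| * p ≤ ((p : ℝ) ^ M * (1 / 2)) * p := by
      calc _ ≤ B * (p : ℝ) ^ M := e3
        _ ≤ (p / 2) * (p : ℝ) ^ M := by gcongr; linarith
        _ = _ := by ring
    exact le_of_mul_le_mul_right e5 hp0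
  unfold amp ωP
  have e6 := neg_le_of_abs_le e4
  have e7 := GP_ge p
  linarith

/-- the events of the library -/
abbrev EX {k : ℕ} (M : ℕ) (c : Fin k → ℝ) (m : ℕ) : Prop :=
  Pool.Agent.Helper92K9.PL.ex al GP (ωP M) c m

lemma EX_iff {k : ℕ} (M : ℕ) (c : Fin k → ℝ) (m : ℕ) : EX M c m ↔ (F M c m).Prime := by
  unfold EX Pool.Agent.Helper92K9.PL.ex
  rw [F_eq]

lemma mem_S {k : ℕ} (M : ℕ) (c : Fin k → ℝ) (m : ℕ) : m ∈ S M c ↔ Ix m ∧ EX M c m := by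
  rw [EX_iff]
  rfl

open Classical in
lemma corr_set {k : ℕ} (M : ℕ) (x : Fin k → ℝ) {r : ℕ} {s t : Fin r → ℝ}
    (hs : ∀ i, 0 < s i) (hst : ∀ i, s i < t i) (n : ℕ) :
    (Set.ncard {q : Fin (r + 1) → ℕ | Function.Injective q ∧ (∀ i, q i ∈ S M x) ∧ q 0 ≤ n ∧
      ∀ i : Fin r, s i * q 0 < q i.succ ∧ (q i.succ : ℝ) ≤ t i * q 0} : ℝ) =
    ∑ p ∈ Pr 1 n, ∑ q ∈ Tp s t p,
      ∏ l, Pool.Agent.Helper92K9.PL.gi al GP (ωP M) x (q l) := by
  have hdis : (Pr 1 (n : ℝ) : Set ℕ).PairwiseDisjoint fun p => Tp s t p := by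
    intro p _ p' _ hpp
    rw [Function.onFun, Finset.disjoint_left]
    intro q hq hq'
    exact hpp (((Pool.Agent.Helper92K9.PL.mem_Tp hs hst).1 hq).2.1.symm.trans
      ((Pool.Agent.Helper92K9.PL.mem_Tp hs hst).1 hq').2.1)
  have h1 := Pool.Agent.Helper92K9.PL.YY_card al GP (ωP M)
    ((Pr 1 (n : ℝ)).biUnion fun p => Tp s t p) x
  have h2 : YY al GP (ωP M) ((Pr 1 (n : ℝ)).biUnion fun p => Tp s t p) x =
      ∑ p ∈ Pr 1 n, ∑ q ∈ Tp s t p,
        ∏ l, Pool.Agent.Helper92K9.PL.gi al GP (ωP M) x (q l) := by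
    unfold YY
    rw [Finset.sum_biUnion hdis]
  rw [← h2, h1, ← Set.ncard_coe_finset]
  congr 2
  ext q
  simp only [Set.mem_ofPred_eq, Finset.coe_filter, Finset.mem_biUnion, mem_S,
    Pool.Agent.Helper92K9.PL.mem_Tp hs hst, mem_Pr zero_le_one (Nat.cast_nonneg n)]
  constructor
  · rintro ⟨g1, g2, g3, g4⟩
    refine ⟨⟨q 0, ⟨(g2 0).1, ?_, by exact_mod_cast g3⟩, g1, rfl, fun i => ⟨(g2 i.succ).1, g4 i⟩⟩,
      fun l => (g2 l).2⟩
    have : 1 < q 0 := (g2 0).1.two_le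
    exact_mod_cast this
  · rintro ⟨⟨p, ⟨g1, g2, g3⟩, g4, g5, g6⟩, g7⟩
    subst g5
    refine ⟨g4, fun l => ⟨?_, g7 l⟩, by exact_mod_cast g3, fun i => (g6 i).2⟩
    refine Fin.cases ?_ (fun i => ?_) l
    · exact g1
    · exact (g6 i).1

open Classical in
lemma gap_set {k : ℕ} (M : ℕ) (x : Fin k → ℝ) {t : ℝ} (ht : 1 < t) (p : ℕ) :
    Set.ncard {q : ℕ | q ∈ S M x ∧ p < q ∧ (q : ℝ) ≤ t * p} =
      KK al GP (ωP M) x 1 t p := by
  unfold KK
  rw [← Set.ncard_coe_finset]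
  congr 1
  ext q
  simp only [Set.mem_ofPred_eq, Finset.coe_filter, mem_S]
  rw [mem_Pr (by positivity) (by positivity), one_mul]
  constructor
  · rintro ⟨⟨g1, g2⟩, g3, g4⟩
    exact ⟨⟨g1, by exact_mod_cast g3, g4⟩, g2⟩
  · rintro ⟨⟨g1, g2, g3⟩, g4⟩
    exact ⟨⟨g1, g4⟩, by exact_mod_cast g2, g3⟩

open Classical in
lemma num_set {k : ℕ} (M : ℕ) (x : Fin k → ℝ) (Q : ℕ → Prop) (n : ℕ) :
    (Set.ncard {p : ℕ | p ∈ S M x ∧ p ≤ n ∧ Q p} : ℝ) =
      ∑ p ∈ Pr 1 n, Pool.Agent.Helper92K9.PL.gi al GP (ωP M) x p *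
        (if Q p then (1 : ℝ) else 0) := by
  have h1 : ∀ p, Pool.Agent.Helper92K9.PL.gi al GP (ωP M) x p *
      (if Q p then (1 : ℝ) else 0) = if EX M x p ∧ Q p then (1 : ℝ) else 0 := by
    intro p
    rw [Pool.Agent.Helper92K9.PL.gi_eq]
    by_cases h : EX M x p
    · by_cases h' : Q p
      · rw [if_pos h, if_pos h', if_pos (show EX M x p ∧ Q p from ⟨h, h'⟩), one_mul]
      · rw [if_neg h', mul_zero, if_neg (show ¬ (EX M x p ∧ Q p) from fun g => h' g.2)]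
    · rw [if_neg h, zero_mul, if_neg (show ¬ (EX M x p ∧ Q p) from fun g => h g.1)]
  simp only [h1]
  rw [← Finset.sum_filter, Finset.sum_const, nsmul_eq_mul, mul_one, ← Set.ncard_coe_finset]
  congr 2
  ext q
  simp only [Set.mem_ofPred_eq, Finset.coe_filter, mem_S, mem_Pr zero_le_one (Nat.cast_nonneg n)]
  constructor
  · rintro ⟨⟨g1, g2⟩, g3, g4⟩
    have : 1 < q := g1.two_le
    exact ⟨⟨g1, by exact_mod_cast this, by exact_mod_cast g3⟩, g2, g4⟩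
  · rintro ⟨⟨g1, g2, g3⟩, g4, g5⟩
    exact ⟨⟨g1, g4⟩, by exact_mod_cast g3, g5⟩

/-- `F_0(m) = N_m = 8 d_m ^ 2 + 1 = 64 b_m ^ 2 + 9`; for `M ≥ k` and almost every `c` all the
correlations up to the order `k / 2` of the indices `m` for which `F_c(m)` is prime are those of a Poisson
process of intensity `1 / log α` on the logarithmic scale, and so are the statistics of the gaps, up to the
error in the Bonferroni inequalities. -/
theorem result :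
    (∀ m : ℕ, ((db m).1 : ℝ) + ((db m).2 : ℝ) * √8 = (3 + √8) ^ m ∧
      N m = 8 * (db m).1 ^ 2 + 1 ∧ N m = 64 * (db m).2 ^ 2 + 9) ∧
    (∀ k M m : ℕ, F M (0 : Fin k → ℝ) m = N m) ∧
    (∀ k M : ℕ, k ≤ M → ∀ᵐ c : Fin k → ℝ,
      (∀ r : ℕ, 2 * (r + 1) ≤ k → ∀ s t : Fin r → ℝ, (∀ i, 0 < s i) → (∀ i, s i < t i) →
        Tendsto (fun n : ℕ => (Set.ncard {q : Fin (r + 1) → ℕ | Function.Injective q ∧
            (∀ i, q i ∈ S M c) ∧ q 0 ≤ n ∧
            ∀ i : Fin r, s i * q 0 < q i.succ ∧ (q i.succ : ℝ) ≤ t i * q 0} : ℝ) / Real.log n) atTop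
          (𝓝 (kappa ^ (r + 1) * ∏ i, Real.log (t i / s i)))) ∧
      (∀ j m : ℕ, 2 * (j + m + 1) ≤ k → ∀ t : ℝ, 1 < t → ∀ ε > 0, ∀ᶠ n : ℕ in atTop,
        |(Set.ncard {p : ℕ | p ∈ S M c ∧ p ≤ n ∧
              Set.ncard {q : ℕ | q ∈ S M c ∧ p < q ∧ (q : ℝ) ≤ t * p} = j} : ℝ) /
            (Set.ncard {p : ℕ | p ∈ S M c ∧ p ≤ n} : ℝ) -
          Real.exp (-(kappa * Real.log t)) * (kappa * Real.log t) ^ j / (j.factorial : ℝ)| ≤
          2 * (kappa * Real.log t) ^ (j + m) / ((j.factorial : ℝ) * (m.factorial : ℝ)) + ε)) := by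
  refine ⟨fun m => ⟨real_eq m, rfl, N_eq m⟩, F_zero, fun k M hkM => ?_⟩
  rcases Nat.eq_zero_or_pos k with hk | hk
  · subst hk
    exact Eventually.of_forall fun c => ⟨fun r hr => absurd hr (by omega), fun j m hr => absurd hr (by omega)⟩
  have hmain : ∀ᵐ c : Fin k → ℝ, Pool.Agent.Helper92K9.PL.Adm GP (ωP M) c →
      Pool.Agent.Helper92K9.PL.Pois al GP (ωP M) c :=
    Pool.Agent.Helper92K9.PL.region hk al_gt (polyB M) (polyW M)
      fun D' u v hF => Pool.Agent.Helper92K9.PL.ae_pois hF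
  filter_upwards [hmain] with c hc0
  have hc := hc0 (adm_near k M c hkM)
  refine ⟨?_, ?_⟩
  · intro r hr s t hs hst
    have h := hc r hr s t hs hst
    simp only [corr_set M c hs hst]
    have e1 : Pool.Agent.Helper92K9.PL.LL al s t = kappa ^ (r + 1) * ∏ i, Real.log (t i / s i) := by
      unfold Pool.Agent.Helper92K9.PL.LL
      rw [Finset.prod_mul_distrib, Finset.prod_const, Finset.card_univ, Fintype.card_fin, pow_succ]
      unfold kappa Pool.Agent.Helper92K9.PL.kap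
      ring
    rw [e1] at h
    exact h
  · intro j m hjm t ht ε hε
    filter_upwards [Pool.Agent.Helper92K9.PL.gap al_gt ht (hc.good ht (N := j + m + 1) hjm) ε hε] with n hn
    have e1 : (Set.ncard {p : ℕ | p ∈ S M c ∧ p ≤ n ∧
        Set.ncard {q : ℕ | q ∈ S M c ∧ p < q ∧ (q : ℝ) ≤ t * p} = j} : ℝ) =
        ∑ p ∈ Pr 1 n, Pool.Agent.Helper92K9.PL.gi al GP (ωP M) c p *
          (if KK al GP (ωP M) c 1 t p = j then (1 : ℝ) else 0) := by
      simp only [gap_set M c ht]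
      refine (num_set M c (fun p => KK al GP (ωP M) c 1 t p = j) n).trans (Finset.sum_congr rfl fun p _ => ?_)
      congr
    have e2 : (Set.ncard {p : ℕ | p ∈ S M c ∧ p ≤ n} : ℝ) =
        ∑ p ∈ Pr 1 n, Pool.Agent.Helper92K9.PL.gi al GP (ωP M) c p := by
      have := num_set M c (fun _ => True) n
      simpa using this
    rw [e1, e2]
    refine hn.trans (le_of_eq ?_)
    unfold Pool.Agent.Helper92K9.MP.cf kappa Pool.Agent.Helper92K9.PL.kap
    ring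

end Pool.Agent.Results.MP_f53aaa_nt.PolynomialPerturbations
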