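import Mathlib
import Pool.Agent.Helper92K9.PL.Series

set_option autoImplicit false

/-!
# Primes in the sequence `8 d_m ^ 2 + 1 = 64 b_m ^ 2 + 9` perturbed by random power series in `1 / m`

Let `d_m + b_m √8 = (3 + √8) ^ m` and `N_m = 8 d_m ^ 2 + 1 = 64 b_m ^ 2 + 9`; the admissible primes of
the problem are the primes among the `N_m`.  With `α = (3 + √8) ^ 2` one has `N_m = 2 α ^ m + O(1)`.
For a natural number `M` and `x = (x_0, x_1, ...)` with entries in `[0, 1]` let `F_x(m)` be the largest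
integer below `N_m + 1 + α ^ m m ^ (-M) (x_0 + x_1 / m + x_2 / m ^ 2 + ...)`.  So `F_0(m) = N_m`, and
all members of the family are within relative distance `m ^ (-M)` of `N_m`.

We prove: if `x_0, x_1, ...` are independent and uniform in `[0, 1]`, then almost surely the indices
`m` for which `F_x(m)` is prime have ALL the correlations of a Poisson process of intensity
`κ = 1 / log α` on the logarithmic scale: the number of such indices up to `n` is `~ κ log n`, the number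
of the tuples `(m, q_1, ..., q_r)` of different such indices with `m ≤ n`, `s_i m < q_i ≤ t_i m` is
`~ κ ^ (r + 1) ∏ log (t_i / s_i) log n` for all `r` and all windows, and the proportion of the indices
that are followed by exactly `j` indices in `(m, t m]` converges to `e ^ (-λ) λ ^ j / j!`,
`λ = κ log t`, for all `t > 1` and all `j`.

Proof.  For fixed `x_k, x_(k+1), ...` the first `k` coefficients form a `k`-parameter family whose
amplitudes at `R ≤ k` indices can be moved independently of each other (Lagrange interpolation), so that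
the primality events at `R` indices are independent up to a power of the least index; this gives the
correlations up to the order `k / 2` almost surely.  By Fubini (independence of head and tail) one can
let `k → ∞`; all the factorial moments converge, and the Bonferroni inequalities give the exact law.
-/

namespace Pool.Agent.Results.MP_f53aaa_nt.RandomSeries

open Filter Topology MeasureTheory ProbabilityTheory
open Pool.Agent.Helper92K9.PL (YY Tp KK Pr mem_Pr Ix ampS)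

/-- `(d_m, b_m)` with `d_m + b_m √8 = (3 + √8) ^ m`. -/
def db : ℕ → ℕ × ℕ
  | 0 => (1, 0)
  | m + 1 => (3 * (db m).1 + 8 * (db m).2, (db m).1 + 3 * (db m).2)

/-- `N_m = 8 d_m ^ 2 + 1`. -/
def N (m : ℕ) : ℕ := 8 * (db m).1 ^ 2 + 1

/-- `α = (3 + √8) ^ 2`. -/
noncomputable def al : ℝ := (3 + √8) ^ 2

/-- The largest integer below `N_m + 1 + α ^ m m ^ (-M) (x_0 + x_1 / m + x_2 / m ^ 2 + ...)`. -/
noncomputable def F (M : ℕ) (x : ℕ → ℝ) (m : ℕ) : ℕ :=
  ⌈(N m : ℝ) + 1 + al ^ m / (m : ℝ) ^ M * ∑' j : ℕ, x j / (m : ℝ) ^ j⌉₊ - 1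

/-- The indices `m ≥ 2` for which `F_x(m)` is prime. -/
def S (M : ℕ) (x : ℕ → ℝ) : Set ℕ := {m | 2 ≤ m ∧ (F M x m).Prime}

/-- The intensity `1 / log α`. -/
noncomputable def kappa : ℝ := 1 / Real.log al

lemma real_eq (m : ℕ) : ((db m).1 : ℝ) + ((db m).2 : ℝ) * √8 = (3 + √8) ^ m := by
  induction m with
  | zero => simp [db]
  | succ m ih =>
    rw [pow_succ, ← ih]
    have h8 : √(8 : ℝ) * √8 = 8 := Real.mul_self_sqrt (by norm_num)
    simp only [db]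
    push_cast
    linear_combination -((db m).2 : ℝ) * h8

lemma pell (m : ℕ) : (db m).1 ^ 2 = 8 * (db m).2 ^ 2 + 1 := by
  induction m with
  | zero => simp [db]
  | succ m ih =>
    simp only [db]
    nlinarith

lemma N_eq (m : ℕ) : N m = 64 * (db m).2 ^ 2 + 9 := by
  unfold N
  rw [pell]
  ring

lemma al_gt : 1 < al := by
  unfold al
  have : 0 ≤ √(8 : ℝ) := Real.sqrt_nonneg _
  nlinarith

lemma N_le (m : ℕ) : (N m : ℝ) + 1 ≤ 10 * al ^ m := by
  have h1 := real_eq m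
  have h2 : 0 ≤ ((db m).2 : ℝ) * √8 := mul_nonneg (Nat.cast_nonneg _) (Real.sqrt_nonneg _)
  have h3 : ((db m).1 : ℝ) ≤ (3 + √8) ^ m := by linarith
  have h4 : ((db m).1 : ℝ) ^ 2 ≤ al ^ m := by
    calc ((db m).1 : ℝ) ^ 2 ≤ ((3 + √8) ^ m) ^ 2 := pow_le_pow_left₀ (Nat.cast_nonneg _) h3 2
      _ = al ^ m := by unfold al; rw [← pow_mul, ← pow_mul, mul_comm]
  have h5 : 1 ≤ al ^ m := one_le_pow₀ al_gt.le
  unfold N
  push_cast
  linarith

/-- the amplitude of the Pell sequence -/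
noncomputable def GP (m : ℕ) : ℝ := ((N m : ℝ) + 1) / al ^ m

/-- the weight of the perturbation -/
noncomputable def ωP (M m : ℕ) : ℝ := ((m : ℝ) ^ M)⁻¹

lemma polyS (M : ℕ) : Pool.Agent.Helper92K9.PL.PolyS GP (ωP M) := by
  refine ⟨M + 1, ?_⟩
  filter_upwards [eventually_ge_atTop 10] with p hp
  have hp1 : (10 : ℝ) ≤ p := by exact_mod_cast hp
  have hal : 0 < al ^ p := pow_pos (by linarith [al_gt]) _
  have hpM : (1 : ℝ) ≤ (p : ℝ) ^ M := one_le_pow₀ (by linarith)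
  have hpM1 : (p : ℝ) ≤ (p : ℝ) ^ (M + 1) := le_self_pow₀ (by linarith) (by omega)
  unfold GP ωP
  refine ⟨by positivity, ?_, ?_, ?_⟩
  · rw [div_le_iff₀ hal]
    have := N_le p
    have h2 : 10 * al ^ p ≤ (p : ℝ) ^ (M + 1) * al ^ p :=
      mul_le_mul_of_nonneg_right (hp1.trans hpM1) hal.le
    linarith
  · exact inv_anti₀ (by positivity) (pow_le_pow_right₀ (by linarith) (by omega))
  · exact (inv_le_one_of_one_le₀ hpM).trans (by linarith)

lemma F_eq (M : ℕ) (x : ℕ → ℝ) (m : ℕ) : F M x m = ⌈ampS GP (ωP M) x m * al ^ m⌉₊ - 1 := by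
  have hal : 0 < al ^ m := pow_pos (by linarith [al_gt]) _
  unfold F ampS GP ωP
  congr 2
  field_simp

lemma F_zero (M m : ℕ) : F M (fun _ => 0) m = N m := by
  unfold F
  have e : (N m : ℝ) + 1 + al ^ m / (m : ℝ) ^ M * ∑' j : ℕ, (0 : ℝ) / (m : ℝ) ^ j = ((N m + 1 : ℕ) : ℝ) := by
    simp
  rw [e, Nat.ceil_natCast]
  rfl

lemma F_near (M : ℕ) {x : ℕ → ℝ} (hx : ∀ j, x j ∈ Set.Icc (0 : ℝ) 1) {m : ℕ} (hm : 2 ≤ m) :
    N m ≤ F M x m ∧ (F M x m : ℝ) ≤ N m + 1 + 2 * al ^ m / (m : ℝ) ^ M := by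
  have hm' : (0 : ℝ) < m := by exact_mod_cast (by omega : 0 < m)
  have hal : 0 < al ^ m := pow_pos (by linarith [al_gt]) _
  have h1 : 0 ≤ ∑' j : ℕ, x j / (m : ℝ) ^ j := tsum_nonneg fun j => div_nonneg (hx j).1 (by positivity)
  have h2 : ∑' j : ℕ, x j / (m : ℝ) ^ j ≤ 2 := by
    have := Pool.Agent.Helper92K9.PL.tail_le 0 hx hm
    simpa using this
  set T := al ^ m / (m : ℝ) ^ M * ∑' j : ℕ, x j / (m : ℝ) ^ j with hT
  have hT0 : 0 ≤ T := by positivity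
  have hT2 : T ≤ 2 * al ^ m / (m : ℝ) ^ M := by
    calc T ≤ al ^ m / (m : ℝ) ^ M * 2 := mul_le_mul_of_nonneg_left h2 (by positivity)
      _ = _ := by ring
  have hc1 : N m + 1 ≤ ⌈(N m : ℝ) + 1 + T⌉₊ := by
    have : ((N m + 1 : ℕ) : ℝ) ≤ (⌈(N m : ℝ) + 1 + T⌉₊ : ℝ) := by
      refine le_trans ?_ (Nat.le_ceil _)
      push_cast
      linarith
    exact_mod_cast this
  have hF : F M x m + 1 = ⌈(N m : ℝ) + 1 + T⌉₊ := by
    unfold F
    rw [← hT]
    omega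
  constructor
  · omega
  · have h3 : (⌈(N m : ℝ) + 1 + T⌉₊ : ℝ) < (N m : ℝ) + 1 + T + 1 := Nat.ceil_lt_add_one (by positivity)
    rw [← hF] at h3
    push_cast at h3
    linarith

/-- the events of the library -/
abbrev EX (M : ℕ) (x : ℕ → ℝ) (m : ℕ) : Prop :=
  Pool.Agent.Helper92K9.PL.ex al (ampS GP (ωP M) x) 0 (Fin.elim0 : Fin 0 → ℝ) m

lemma EX_iff (M : ℕ) (x : ℕ → ℝ) (m : ℕ) : EX M x m ↔ (F M x m).Prime := by
  unfold EX Pool.Agent.Helper92K9.PL.ex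
  rw [F_eq]
  have : Pool.Agent.Helper92K9.PL.amp (ampS GP (ωP M) x) 0 (Fin.elim0 : Fin 0 → ℝ) m = ampS GP (ωP M) x m := by
    unfold Pool.Agent.Helper92K9.PL.amp
    simp
  rw [this]

lemma mem_S (M : ℕ) (x : ℕ → ℝ) (m : ℕ) : m ∈ S M x ↔ Ix m ∧ EX M x m := by
  rw [EX_iff]
  rfl

open Classical in
lemma corr_set (M : ℕ) (x : ℕ → ℝ) {r : ℕ} {s t : Fin r → ℝ}
    (hs : ∀ i, 0 < s i) (hst : ∀ i, s i < t i) (n : ℕ) :
    (Set.ncard {q : Fin (r + 1) → ℕ | Function.Injective q ∧ (∀ i, q i ∈ S M x) ∧ q 0 ≤ n ∧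
      ∀ i : Fin r, s i * q 0 < q i.succ ∧ (q i.succ : ℝ) ≤ t i * q 0} : ℝ) =
    ∑ p ∈ Pr 1 n, ∑ q ∈ Tp s t p,
      ∏ l, Pool.Agent.Helper92K9.PL.gi al (ampS GP (ωP M) x) 0 (Fin.elim0 : Fin 0 → ℝ) (q l) := by
  have hdis : (Pr 1 (n : ℝ) : Set ℕ).PairwiseDisjoint fun p => Tp s t p := by
    intro p _ p' _ hpp
    rw [Function.onFun, Finset.disjoint_left]
    intro q hq hq'
    exact hpp (((Pool.Agent.Helper92K9.PL.mem_Tp hs hst).1 hq).2.1.symm.trans
      ((Pool.Agent.Helper92K9.PL.mem_Tp hs hst).1 hq').2.1)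
  have h1 := Pool.Agent.Helper92K9.PL.YY_card al (ampS GP (ωP M) x) 0
    ((Pr 1 (n : ℝ)).biUnion fun p => Tp s t p) (Fin.elim0 : Fin 0 → ℝ)
  have h2 : YY al (ampS GP (ωP M) x) 0 ((Pr 1 (n : ℝ)).biUnion fun p => Tp s t p) (Fin.elim0 : Fin 0 → ℝ) =
      ∑ p ∈ Pr 1 n, ∑ q ∈ Tp s t p,
        ∏ l, Pool.Agent.Helper92K9.PL.gi al (ampS GP (ωP M) x) 0 (Fin.elim0 : Fin 0 → ℝ) (q l) := by
    unfold YY
    rw [Finset.sum_biUnion hdis]
  rw [← h2, h1, ← Set.ncard_coe_finset]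
  congr 2
  ext q
  simp only [Set.mem_ofPred_eq, Finset.coe_filter, Finset.mem_biUnion, mem_S,
    Pool.Agent.Helper92K9.PL.mem_Tp hs hst, mem_Pr zero_le_one (Nat.cast_nonneg n)]
  constructor
  · rintro ⟨g1, g2, g3, g4⟩
    refine ⟨⟨q 0, ⟨(g2 0).1, ?_, by exact_mod_cast g3⟩, g1, rfl, fun i => ⟨(g2 i.succ).1, g4 i⟩⟩,
      fun l => (g2 l).2⟩
    have : 1 < q 0 := (g2 0).1.two_le
    exact_mod_cast this
  · rintro ⟨⟨p, ⟨g1, g2, g3⟩, g4, g5, g6⟩, g7⟩
    subst g5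
    refine ⟨g4, fun l => ⟨?_, g7 l⟩, by exact_mod_cast g3, fun i => (g6 i).2⟩
    refine Fin.cases ?_ (fun i => ?_) l
    · exact g1
    · exact (g6 i).1

open Classical in
lemma gap_set (M : ℕ) (x : ℕ → ℝ) {t : ℝ} (ht : 1 < t) (p : ℕ) :
    Set.ncard {q : ℕ | q ∈ S M x ∧ p < q ∧ (q : ℝ) ≤ t * p} =
      KK al (ampS GP (ωP M) x) 0 (Fin.elim0 : Fin 0 → ℝ) 1 t p := by
  unfold KK
  rw [← Set.ncard_coe_finset]
  congr 1
  ext q
  simp only [Set.mem_ofPred_eq, Finset.coe_filter, mem_S]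
  rw [mem_Pr (by positivity) (by positivity), one_mul]
  constructor
  · rintro ⟨⟨g1, g2⟩, g3, g4⟩
    exact ⟨⟨g1, by exact_mod_cast g3, g4⟩, g2⟩
  · rintro ⟨⟨g1, g2, g3⟩, g4⟩
    exact ⟨⟨g1, g4⟩, by exact_mod_cast g2, g3⟩

open Classical in
lemma num_set (M : ℕ) (x : ℕ → ℝ) (Q : ℕ → Prop) (n : ℕ) :
    (Set.ncard {p : ℕ | p ∈ S M x ∧ p ≤ n ∧ Q p} : ℝ) =
      ∑ p ∈ Pr 1 n, Pool.Agent.Helper92K9.PL.gi al (ampS GP (ωP M) x) 0 (Fin.elim0 : Fin 0 → ℝ) p *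
        (if Q p then (1 : ℝ) else 0) := by
  have h1 : ∀ p, Pool.Agent.Helper92K9.PL.gi al (ampS GP (ωP M) x) 0 (Fin.elim0 : Fin 0 → ℝ) p *
      (if Q p then (1 : ℝ) else 0) = if EX M x p ∧ Q p then (1 : ℝ) else 0 := by
    intro p
    rw [Pool.Agent.Helper92K9.PL.gi_eq]
    by_cases h : EX M x p
    · by_cases h' : Q p
      · rw [if_pos h, if_pos h', if_pos (show EX M x p ∧ Q p from ⟨h, h'⟩), one_mul]
      · rw [if_neg h', mul_zero, if_neg (show ¬ (EX M x p ∧ Q p) from fun g => h' g.2)]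
    · rw [if_neg h, zero_mul, if_neg (show ¬ (EX M x p ∧ Q p) from fun g => h g.1)]
  simp only [h1]
  rw [← Finset.sum_filter, Finset.sum_const, nsmul_eq_mul, mul_one, ← Set.ncard_coe_finset]
  congr 2
  ext q
  simp only [Set.mem_ofPred_eq, Finset.coe_filter, mem_S, mem_Pr zero_le_one (Nat.cast_nonneg n)]
  constructor
  · rintro ⟨⟨g1, g2⟩, g3, g4⟩
    have : 1 < q := g1.two_le
    exact ⟨⟨g1, by exact_mod_cast this, by exact_mod_cast g3⟩, g2, g4⟩
  · rintro ⟨⟨g1, g2, g3⟩, g4, g5⟩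
    exact ⟨⟨g1, g4⟩, by exact_mod_cast g3, g5⟩

/-- For independent `X_0, X_1, ...`, uniform in `[0, 1]`, the indices of the primes among the numbers
`F_X(m)` have almost surely all the correlations and the gap statistics of a Poisson process of
intensity `1 / log α` on the logarithmic scale; `F_0(m) = N_m = 8 d_m ^ 2 + 1 = 64 b_m ^ 2 + 9`, and
all `F_x(m)` are within `1 + 2 α ^ m m ^ (-M)` of `N_m`. -/
theorem result :
    (∀ m : ℕ, ((db m).1 : ℝ) + ((db m).2 : ℝ) * √8 = (3 + √8) ^ m ∧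
      N m = 8 * (db m).1 ^ 2 + 1 ∧ N m = 64 * (db m).2 ^ 2 + 9) ∧
    (∀ M m : ℕ, F M (fun _ => 0) m = N m) ∧
    (∀ (M : ℕ) (x : ℕ → ℝ), (∀ j, x j ∈ Set.Icc (0 : ℝ) 1) → ∀ m : ℕ, 2 ≤ m →
      N m ≤ F M x m ∧ (F M x m : ℝ) ≤ N m + 1 + 2 * al ^ m / (m : ℝ) ^ M) ∧
    (∀ (Ω : Type) [MeasurableSpace Ω] (P : Measure Ω) [IsProbabilityMeasure P] (X : ℕ → Ω → ℝ),
      (∀ j, Measurable (X j)) → iIndepFun X P → (∀ j, P.map (X j) = volume.restrict (Set.Icc 0 1)) →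
      ∀ M : ℕ, ∀ᵐ w ∂P,
      (∀ (r : ℕ) (s t : Fin r → ℝ), (∀ i, 0 < s i) → (∀ i, s i < t i) →
        Tendsto (fun n : ℕ => (Set.ncard {q : Fin (r + 1) → ℕ | Function.Injective q ∧
            (∀ i, q i ∈ S M (fun j => X j w)) ∧ q 0 ≤ n ∧
            ∀ i : Fin r, s i * q 0 < q i.succ ∧ (q i.succ : ℝ) ≤ t i * q 0} : ℝ) / Real.log n) atTop
          (𝓝 (kappa ^ (r + 1) * ∏ i, Real.log (t i / s i)))) ∧
      (∀ t : ℝ, 1 < t → ∀ j : ℕ, Tendsto (fun n : ℕ =>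
        (Set.ncard {p : ℕ | p ∈ S M (fun j => X j w) ∧ p ≤ n ∧
            Set.ncard {q : ℕ | q ∈ S M (fun j => X j w) ∧ p < q ∧ (q : ℝ) ≤ t * p} = j} : ℝ) /
          (Set.ncard {p : ℕ | p ∈ S M (fun j => X j w) ∧ p ≤ n} : ℝ)) atTop
        (𝓝 (Real.exp (-(kappa * Real.log t)) * (kappa * Real.log t) ^ j / (j.factorial : ℝ))))) := by
  refine ⟨fun m => ⟨real_eq m, rfl, N_eq m⟩, F_zero, fun M x hx m hm => F_near M hx hm, ?_⟩
  intro Ω _ P _ X hX hi hu M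
  filter_upwards [Pool.Agent.Helper92K9.PL.series hX hi hu al_gt (polyS M)] with w hw
  refine ⟨?_, ?_⟩
  · intro r s t hs hst
    have h := hw r s t hs hst
    simp only [corr_set M (fun j => X j w) hs hst]
    have e1 : Pool.Agent.Helper92K9.PL.LL al s t = kappa ^ (r + 1) * ∏ i, Real.log (t i / s i) := by
      unfold Pool.Agent.Helper92K9.PL.LL
      rw [Finset.prod_mul_distrib, Finset.prod_const, Finset.card_univ, Fintype.card_fin, pow_succ]
      unfold kappa Pool.Agent.Helper92K9.PL.kap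
      ring
    rw [e1] at h
    exact h
  · intro t ht j
    have h := Pool.Agent.Helper92K9.PL.gap_exact al_gt hw ht j
    refine h.congr fun n => ?_
    have e1 : (Set.ncard {p : ℕ | p ∈ S M (fun j => X j w) ∧ p ≤ n ∧
        Set.ncard {q : ℕ | q ∈ S M (fun j => X j w) ∧ p < q ∧ (q : ℝ) ≤ t * p} = j} : ℝ) =
        ∑ p ∈ Pr 1 n, Pool.Agent.Helper92K9.PL.gi al (ampS GP (ωP M) fun j => X j w) 0
          (Fin.elim0 : Fin 0 → ℝ) p *
          (if KK al (ampS GP (ωP M) fun j => X j w) 0 (Fin.elim0 : Fin 0 → ℝ) 1 t p = j then (1 : ℝ) else 0) := by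
      simp only [gap_set M (fun j => X j w) ht]
      refine (num_set M (fun j => X j w)
        (fun p => KK al (ampS GP (ωP M) fun j => X j w) 0 (Fin.elim0 : Fin 0 → ℝ) 1 t p = j) n).trans
        (Finset.sum_congr rfl fun p _ => ?_)
      congr
    have e2 : (Set.ncard {p : ℕ | p ∈ S M (fun j => X j w) ∧ p ≤ n} : ℝ) =
        ∑ p ∈ Pr 1 n, Pool.Agent.Helper92K9.PL.gi al (ampS GP (ωP M) fun j => X j w) 0
          (Fin.elim0 : Fin 0 → ℝ) p := by
      have := num_set M (fun j => X j w) (fun _ => True) n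
      simpa using this
    rw [e1, e2]

end Pool.Agent.Results.MP_f53aaa_nt.RandomSeries
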